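import Pool.Agent.Q107.Snark.Final

/-!
# Cyclically 6-edge-connected rotation `T_i`-snarks exist for every `i ≥ 6`

All definitions of the statement are in `Pool.Agent.Q107.Snark.Defs`.
-/

set_option autoImplicit false

namespace Pool.Agent.Results.MP_98514b_co.CyclicallySix

open Q107.Snark

/-- For every `i ≥ 6` there is a rotation `T_i`-snark that is cyclically 6-edge-connected (and in
which every cycle has length at least 6). -/
theorem result : ∀ i : ℕ, 6 ≤ i → ∃ (V : Type) (G : SimpleGraph V),
    IsRotationTSnark G i ∧ CycEdgeConn G 6 ∧ GirthAtLeast G 6 := by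
  intro i hi
  obtain ⟨k, rfl⟩ : ∃ k, i = k + 6 := ⟨i - 6, by omega⟩
  exact ⟨Vx k, Gr k, rotationGr k, cycGr k, girthGr k⟩

end Pool.Agent.Results.MP_98514b_co.CyclicallySix
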